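import Mathlib

/-!
# MP_c8df5e_gt: the `d`-reflection preserves arbitrary products of `T₀` spaces

`d`-spaces (monotone convergence spaces), `d`-reflections by their universal property, and the
theorem that for every family of `T₀` spaces `X i` with `d`-reflections `μ i : X i → R i` the map
`∏ μ i : ∏ X i → ∏ R i` is a `d`-reflection of `∏ X i`. In particular `(∏ X i)^d` is homeomorphic
to `∏ (X i)^d`.
-/

set_option autoImplicit false

open Set Topology

namespace Pool.Agent.Results.MP_c8df5e_gt.ArbitraryProducts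

universe u v w

/-- The specialization order: `x ≤ y` iff `x` is in the closure of `{y}`. -/
def SLe {X : Type u} [TopologicalSpace X] (x y : X) : Prop := x ∈ closure ({y} : Set X)

/-- `D` is a (nonempty) directed subset for the specialization order. -/
def IsDirected {X : Type u} [TopologicalSpace X] (D : Set X) : Prop :=
  D.Nonempty ∧ ∀ x ∈ D, ∀ y ∈ D, ∃ z ∈ D, SLe x z ∧ SLe y z

/-- `s` is the supremum of `D` for the specialization order. -/
def IsSup {X : Type u} [TopologicalSpace X] (D : Set X) (s : X) : Prop :=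
  (∀ x ∈ D, SLe x s) ∧ ∀ b : X, (∀ x ∈ D, SLe x b) → SLe s b

/-- `d`-spaces: `T₀` spaces in which every directed set `D` has a supremum `s`, and every open
neighbourhood of `s` meets `D`. -/
structure IsDSpace (X : Type u) [TopologicalSpace X] : Prop where
  t0 : T0Space X
  sup : ∀ D : Set X, IsDirected D → ∃ s, IsSup D s ∧ ∀ U : Set X, IsOpen U → s ∈ U →
    (D ∩ U).Nonempty

/-- `μ : X → R` is a `d`-reflection of `X`: `R` is a `d`-space, `μ` is continuous and every
continuous map from `X` to a `d`-space `Y` (in the universe `w`) factors uniquely through `μ`. -/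
structure IsDReflection {X : Type u} {R : Type v} [TopologicalSpace X] [TopologicalSpace R]
    (μ : X → R) : Prop where
  dspace : IsDSpace R
  continuous : Continuous μ
  lift : ∀ (Y : Type w) [TopologicalSpace Y], IsDSpace Y → ∀ f : X → Y, Continuous f →
    ∃! g : R → Y, Continuous g ∧ g ∘ μ = f

section basics

variable {X : Type u} [TopologicalSpace X] {Y : Type v} [TopologicalSpace Y]

theorem SLe.mem {x y : X} (h : SLe x y) {U : Set X} (hU : IsOpen U) (hx : x ∈ U) : y ∈ U := by
  obtain ⟨z, hz1, hz2⟩ := mem_closure_iff.1 h U hU hx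
  rw [mem_singleton_iff] at hz2
  rwa [hz2] at hz1

theorem sle_of_forall {x y : X} (h : ∀ U : Set X, IsOpen U → x ∈ U → y ∈ U) : SLe x y :=
  mem_closure_iff.2 fun U hU hx => ⟨y, h U hU hx, rfl⟩

theorem SLe.refl (x : X) : SLe x x := sle_of_forall fun _ _ h => h

theorem SLe.trans {x y z : X} (h : SLe x y) (h' : SLe y z) : SLe x z :=
  sle_of_forall fun _ hU hx => h'.mem hU (h.mem hU hx)

theorem SLe.map {x y : X} (h : SLe x y) {f : X → Y} (hf : Continuous f) : SLe (f x) (f y) :=
  sle_of_forall fun U hU hx => h.mem (hU.preimage hf) hx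

theorem SLe.antisymm [T0Space X] {x y : X} (h : SLe x y) (h' : SLe y x) : x = y := by
  apply Inseparable.eq
  rw [inseparable_iff_forall_isOpen]
  exact fun U hU => ⟨h.mem hU, h'.mem hU⟩

/-- `s` is an upper bound of `D` every open neighbourhood of which meets `D`. -/
def DConv (D : Set X) (s : X) : Prop :=
  (∀ x ∈ D, SLe x s) ∧ ∀ U : Set X, IsOpen U → s ∈ U → (D ∩ U).Nonempty

theorem DConv.isSup {D : Set X} {s : X} (h : DConv D s) : IsSup D s :=
  ⟨h.1, fun b hb => sle_of_forall fun U hU hs => by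
    obtain ⟨d, hd, hdU⟩ := h.2 U hU hs
    exact (hb d hd).mem hU hdU⟩

theorem IsDirected.map {D : Set X} (hD : IsDirected D) {f : X → Y} (hf : Continuous f) :
    IsDirected (f '' D) := by
  refine ⟨hD.1.image f, ?_⟩
  rintro _ ⟨x, hx, rfl⟩ _ ⟨y, hy, rfl⟩
  obtain ⟨z, hz, h1, h2⟩ := hD.2 x hx y hy
  exact ⟨f z, ⟨z, hz, rfl⟩, h1.map hf, h2.map hf⟩

theorem DConv.map {D : Set X} {s : X} (h : DConv D s) {f : X → Y} (hf : Continuous f) :
    DConv (f '' D) (f s) := by
  refine ⟨?_, fun U hU hs => ?_⟩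
  · rintro _ ⟨x, hx, rfl⟩
    exact (h.1 x hx).map hf
  · obtain ⟨d, hd, hdU⟩ := h.2 _ (hU.preimage hf) hs
    exact ⟨f d, ⟨d, hd, rfl⟩, hdU⟩

/-- `T` contains the limits of its directed subsets. -/
def DClosed (T : Set X) : Prop := ∀ D ⊆ T, IsDirected D → ∀ s, DConv D s → s ∈ T

/-- Every `d`-closed set that contains the image of `μ` is everything. -/
def DDense {X : Type u} {R : Type v} [TopologicalSpace R] (μ : X → R) : Prop :=
  ∀ T : Set R, (∀ x, μ x ∈ T) → DClosed T → ∀ r, r ∈ T

end basics

/-- A `d`-closed subset of a `d`-space is a `d`-space. -/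
theorem isDSpace_subtype {R : Type u} [TopologicalSpace R] (hR : IsDSpace R) {T : Set R}
    (hT : DClosed T) : IsDSpace T := by
  have := hR.t0
  refine ⟨inferInstance, fun D hD => ?_⟩
  obtain ⟨s, hs1, hs2⟩ := hR.sup (Subtype.val '' D) (hD.map continuous_subtype_val)
  have hconv : DConv (Subtype.val '' D) s := ⟨hs1.1, hs2⟩
  have hsT : s ∈ T := hT _ (by rintro _ ⟨x, _, rfl⟩; exact x.2)
    (hD.map continuous_subtype_val) s hconv
  have key : DConv D (⟨s, hsT⟩ : T) := by
    refine ⟨fun x hx => sle_of_forall fun U hU hxU => ?_, fun U hU hsU => ?_⟩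
    · obtain ⟨V, hV, rfl⟩ := isOpen_induced_iff.1 hU
      exact (hs1.1 x ⟨x, hx, rfl⟩).mem hV hxU
    · obtain ⟨V, hV, rfl⟩ := isOpen_induced_iff.1 hU
      obtain ⟨_, ⟨d, hd, rfl⟩, hdV⟩ := hs2 V hV hsU
      exact ⟨d, hd, hdV⟩
  exact ⟨_, key.isSup, key.2⟩

/-- The Sierpinski space is a `d`-space. -/
theorem isDSpace_sierpinski : IsDSpace (ULift.{w} Prop) := by
  refine ⟨inferInstance, fun D _ => ?_⟩
  have hopen : IsOpen {p : ULift.{w} Prop | p.down} := by
    have : Continuous (ULift.down : ULift.{w} Prop → Prop) := continuous_uliftDown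
    exact continuous_Prop.1 this
  have hle : ∀ p q : ULift.{w} Prop, (p.down → q.down) → SLe p q := by
    intro p q hpq
    refine sle_of_forall fun U hU hp => ?_
    by_cases hq : q.down
    · by_cases hp' : p.down
      · have : p = q := ULift.ext _ _ (by simp [hp', hq])
        rwa [← this]
      · -- `U` contains the bottom, hence everything
        have hU' : IsOpen (ULift.up ⁻¹' U : Set Prop) := hU.preimage continuous_uliftUp
        have hF : False ∈ (ULift.up ⁻¹' U : Set Prop) := by
          have : p = ULift.up False := ULift.ext _ _ (by simp [hp'])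
          rw [this] at hp
          exact hp
        have : (ULift.up ⁻¹' U : Set Prop) ∈ 𝓝 False := hU'.mem_nhds hF
        rw [nhds_false] at this
        have h1 : (ULift.up ⁻¹' U : Set Prop) = univ := by simpa using this
        have : q.down ∈ (ULift.up ⁻¹' U : Set Prop) := by rw [h1]; trivial
        exact this
    · have : p = q := by
        refine ULift.ext _ _ (propext ⟨hpq, fun h => (hq h).elim⟩)
      rwa [← this]
  have key : DConv D (ULift.up (∃ d ∈ D, d.down)) ∨ D = ∅ := by
    by_cases hD : D = ∅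
    · exact Or.inr hD
    left
    refine ⟨fun x hx => hle _ _ fun h => ⟨x, hx, h⟩, fun U hU hs => ?_⟩
    by_cases h : ∃ d ∈ D, d.down
    · obtain ⟨d, hd, hdd⟩ := h
      refine ⟨d, hd, ?_⟩
      have : (ULift.up (∃ d ∈ D, d.down) : ULift.{w} Prop) = d :=
        ULift.ext _ _ (by simp only [hdd, eq_iff_iff, iff_true]; exact ⟨d, hd, hdd⟩)
      rwa [this] at hs
    · obtain ⟨d, hd⟩ := nonempty_iff_ne_empty.2 hD
      exact ⟨d, hd, (hle _ _ fun h' => absurd h' h).mem hU hs⟩
  rcases key with key | key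
  · exact ⟨_, key.isSup, key.2⟩
  · rename_i hD
    exact absurd hD.1 (by simp [key])

/-- Criterion for `d`-reflections. -/
theorem isDReflection_of {X : Type u} {R : Type v} [TopologicalSpace X] [TopologicalSpace R]
    {μ : X → R} (hR : IsDSpace R) (hμ : IsInducing μ) (hd : DDense μ) :
    IsDReflection.{u, v, w} μ := by
  classical
  refine ⟨hR, hμ.continuous, fun Y _ hY f hf => ?_⟩
  have := hY.t0
  have hext : ∀ V : Set Y, IsOpen V → ∃ W : Set R, IsOpen W ∧ μ ⁻¹' W = f ⁻¹' V := fun V hV =>
    hμ.isOpen_iff.1 (hV.preimage hf)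
  choose W hWo hW using hext
  have hmemW : ∀ V (hV : IsOpen V) x, μ x ∈ W V hV ↔ f x ∈ V := fun V hV x => by
    have := congrArg (fun S => x ∈ S) (hW V hV)
    simpa using this
  have hS : ∀ r : R, ∃ y : Y, ∀ V (hV : IsOpen V), y ∈ V ↔ r ∈ W V hV := by
    refine hd {r | ∃ y : Y, ∀ V (hV : IsOpen V), y ∈ V ↔ r ∈ W V hV} ?_ ?_
    · intro x
      exact ⟨f x, fun V hV => (hmemW V hV x).symm⟩
    · intro D hDS hD s hs
      have hDS' : ∀ d : D, ∃ y : Y, ∀ V (hV : IsOpen V), y ∈ V ↔ (d : R) ∈ W V hV :=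
        fun d => hDS d.2
      choose y hy using hDS'
      have hmono : ∀ d d' : D, SLe (d : R) (d' : R) → SLe (y d) (y d') := fun d d' h =>
        sle_of_forall fun V hV hyV => (hy d' V hV).2 (h.mem (hWo V hV) ((hy d V hV).1 hyV))
      have hdir : IsDirected (range y) := by
        obtain ⟨d0, hd0⟩ := hD.1
        refine ⟨⟨y ⟨d0, hd0⟩, mem_range_self _⟩, ?_⟩
        rintro _ ⟨a, rfl⟩ _ ⟨b, rfl⟩
        obtain ⟨c, hc, h1, h2⟩ := hD.2 a a.2 b b.2
        exact ⟨y ⟨c, hc⟩, mem_range_self _, hmono a ⟨c, hc⟩ h1, hmono b ⟨c, hc⟩ h2⟩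
      obtain ⟨z, hz1, hz2⟩ := hY.sup _ hdir
      refine ⟨z, fun V hV => ⟨fun hzV => ?_, fun hsV => ?_⟩⟩
      · obtain ⟨_, ⟨d, rfl⟩, hdV⟩ := hz2 V hV hzV
        exact (hs.1 d d.2).mem (hWo V hV) ((hy d V hV).1 hdV)
      · obtain ⟨d, hdD, hdW⟩ := hs.2 _ (hWo V hV) hsV
        exact (hz1.1 (y ⟨d, hdD⟩) (mem_range_self _)).mem hV ((hy ⟨d, hdD⟩ V hV).2 hdW)
  choose g hg using hS
  have hgc : Continuous g := by
    refine continuous_def.2 fun V hV => ?_
    have : g ⁻¹' V = W V hV := by
      ext r
      exact hg r V hV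
    rw [this]
    exact hWo V hV
  refine ⟨g, ⟨hgc, ?_⟩, ?_⟩
  · funext x
    apply Inseparable.eq
    rw [inseparable_iff_forall_isOpen]
    intro V hV
    exact (hg (μ x) V hV).trans (hmemW V hV x)
  · rintro g' ⟨hg'c, hg'⟩
    have hgμ : g ∘ μ = f := by
      funext x
      apply Inseparable.eq
      rw [inseparable_iff_forall_isOpen]
      intro V hV
      exact (hg (μ x) V hV).trans (hmemW V hV x)
    funext r
    refine hd {r | g' r = g r} (fun x => ?_) ?_ r
    · have := congrFun (hg'.trans hgμ.symm) x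
      exact this
    · intro D hDT _ s hs
      have aux : ∀ a b : R → Y, Continuous a → Continuous b → (∀ d ∈ D, a d = b d) →
          SLe (a s) (b s) := by
        intro a b ha hb hab
        refine sle_of_forall fun V hV hasV => ?_
        obtain ⟨d, hdD, hdV⟩ := hs.2 _ (hV.preimage ha) hasV
        have : b d ∈ V := by rw [← hab d hdD]; exact hdV
        exact ((hs.1 d hdD).map hb).mem hV this
      exact (aux g' g hg'c hgc fun d hd' => hDT hd').antisymm
        (aux g g' hgc hg'c fun d hd' => (hDT hd').symm)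

/-- A `d`-reflection is an inducing map. -/
theorem IsDReflection.isInducing {X : Type u} {R : Type v} [TopologicalSpace X]
    [TopologicalSpace R] {μ : X → R} (h : IsDReflection.{u, v, w} μ) : IsInducing μ := by
  refine ⟨le_antisymm (continuous_iff_le_induced.1 h.continuous) ?_⟩
  intro U hU
  have hc : Continuous (fun x : X => (ULift.up (x ∈ U) : ULift.{w} Prop)) :=
    continuous_uliftUp.comp (continuous_Prop.2 hU)
  obtain ⟨g, ⟨hg, hgμ⟩, -⟩ := h.lift (ULift.{w} Prop) isDSpace_sierpinski _ hc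
  have hopen : IsOpen {r : R | (g r).down} := by
    have : Continuous (fun r => (g r).down) := continuous_uliftDown.comp hg
    exact continuous_Prop.1 this
  refine isOpen_induced_iff.2 ⟨_, hopen, ?_⟩
  ext x
  have := congrArg ULift.down (congrFun hgμ x)
  simp only [Function.comp_apply] at this
  show (g (μ x)).down ↔ x ∈ U
  rw [this]

/-- The image of `X` in its `d`-reflection is `d`-dense. -/
theorem IsDReflection.dDense {X : Type u} {R : Type v} [TopologicalSpace X]
    [TopologicalSpace R] {μ : X → R} (h : IsDReflection.{u, v, v} μ) : DDense μ := by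
  intro T hμT hT r
  have hTd : IsDSpace T := isDSpace_subtype h.dspace hT
  have hc : Continuous (fun x => (⟨μ x, hμT x⟩ : T)) := h.continuous.subtype_mk _
  obtain ⟨g, ⟨hg, hgμ⟩, -⟩ := h.lift T hTd _ hc
  obtain ⟨g0, -, huniq⟩ := h.lift R h.dspace μ h.continuous
  have h1 : (Subtype.val ∘ g : R → R) = g0 := huniq _ ⟨continuous_subtype_val.comp hg, by
    funext x
    have := congrArg Subtype.val (congrFun hgμ x)
    exact this⟩
  have h2 : (id : R → R) = g0 := huniq _ ⟨continuous_id, rfl⟩
  have h3 : ((g r : T) : R) = r := congrFun (h1.trans h2.symm) r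
  rw [← h3]
  exact (g r).2

section products

variable {ι : Type w} {X : ι → Type u} {R : ι → Type v} [∀ i, TopologicalSpace (X i)]
  [∀ i, TopologicalSpace (R i)]

theorem sle_pi {x y : ∀ i, R i} (h : ∀ i, SLe (x i) (y i)) : SLe x y := by
  have : y ⤳ x := by
    rw [specializes_pi]
    intro i
    exact specializes_iff_mem_closure.2 (h i)
  exact specializes_iff_mem_closure.1 this

/-- Every neighbourhood of `s` contains a box over a finite set of coordinates. -/
theorem exists_box {U : Set (∀ i, R i)} (hU : IsOpen U) {s : ∀ i, R i} (hs : s ∈ U) :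
    ∃ (F : Finset ι) (V : ∀ i, Set (R i)), (∀ i, IsOpen (V i)) ∧ (∀ i, s i ∈ V i) ∧
      ∀ z : ∀ i, R i, (∀ i ∈ F, z i ∈ V i) → z ∈ U := by
  classical
  rw [isOpen_pi_iff] at hU
  obtain ⟨F, V, hV, hVU⟩ := hU s hs
  refine ⟨F, fun i => if i ∈ F then V i else univ, fun i => ?_, fun i => ?_, fun z hz => ?_⟩
  · by_cases hi : i ∈ F
    · simp only [hi, if_true]; exact (hV i hi).1
    · simp only [hi, if_false]; exact isOpen_univ
  · by_cases hi : i ∈ F
    · simp only [hi, if_true]; exact (hV i hi).2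
    · simp only [hi, if_false]; exact mem_univ _
  · apply hVU
    intro i hi
    have := hz i hi
    simp only [Finset.mem_coe] at hi
    simpa [hi] using this

theorem isDSpace_pi (hR : ∀ i, IsDSpace (R i)) : IsDSpace (∀ i, R i) := by
  classical
  have := fun i => (hR i).t0
  refine ⟨inferInstance, fun D hD => ?_⟩
  have h1 : ∀ i, ∃ s, IsSup ((fun x : ∀ i, R i => x i) '' D) s ∧ ∀ U : Set (R i), IsOpen U →
      s ∈ U → (((fun x : ∀ i, R i => x i) '' D) ∩ U).Nonempty := fun i =>
    (hR i).sup _ (hD.map (continuous_apply i))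
  choose s hs1 hs2 using h1
  have key : DConv D s := by
    refine ⟨fun x hx => sle_pi fun i => (hs1 i).1 _ ⟨x, hx, rfl⟩, fun U hU hsU => ?_⟩
    obtain ⟨F, V, hV, hsV, hVU⟩ := exists_box hU hsU
    have : ∀ F' : Finset ι, ∃ d ∈ D, ∀ i ∈ F', d i ∈ V i := by
      intro F'
      induction F' using Finset.induction_on with
      | empty => obtain ⟨d, hd⟩ := hD.1; exact ⟨d, hd, by simp⟩
      | insert a F' _ ih =>
        obtain ⟨d, hd, hdF⟩ := ih
        obtain ⟨_, ⟨e, he, rfl⟩, heV⟩ := hs2 a (V a) (hV a) (hsV a)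
        obtain ⟨c, hc, h1, h2⟩ := hD.2 d hd e he
        refine ⟨c, hc, fun i hi => ?_⟩
        rcases Finset.mem_insert.1 hi with rfl | hi
        · exact (h2.map (continuous_apply i)).mem (hV i) heV
        · exact (h1.map (continuous_apply i)).mem (hV i) (hdF i hi)
    obtain ⟨d, hd, hdF⟩ := this F
    exact ⟨d, hd, hVU d hdF⟩
  exact ⟨s, key.isSup, key.2⟩

omit [∀ i, TopologicalSpace (X i)] in
/-- The product of `d`-dense maps is `d`-dense. -/
theorem dDense_pi {μ : ∀ i, X i → R i} (hμ : ∀ i, DDense (μ i)) :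
    DDense (fun (x : ∀ i, X i) (i : ι) => μ i (x i)) := by
  classical
  intro T hT hTc r
  -- points all but finitely many coordinates of which are in the images of the `μ i`
  have h1 : ∀ F : Finset ι, ∀ x : ∀ i, R i, (∀ i, i ∉ F → ∃ y, μ i y = x i) → x ∈ T := by
    intro F
    induction F using Finset.induction_on with
    | empty =>
      intro x hx
      have hx' : ∀ i, ∃ y, μ i y = x i := fun i => hx i (by simp)
      choose y hy using hx'
      have : x = fun i => μ i (y i) := by funext i; exact (hy i).symm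
      rw [this]
      exact hT y
    | insert a F _ ih =>
      intro x hx
      have hup : Continuous (fun t : R a => Function.update x a t) :=
        continuous_const.update a continuous_id
      have h2 : ∀ t : R a, Function.update x a t ∈ T := by
        refine hμ a {t | Function.update x a t ∈ T} (fun z => ?_) ?_
        · refine ih _ fun i hi => ?_
          by_cases hia : i = a
          · subst hia
            exact ⟨z, by simp⟩
          · rw [Function.update_of_ne hia]
            exact hx i (by simp [hia, hi])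
        · intro D hDT hD s hs
          refine hTc _ ?_ (hD.map hup) _ (hs.map hup)
          rintro _ ⟨t, ht, rfl⟩
          exact hDT ht
      have := h2 (x a)
      rwa [Function.update_eq_self] at this
  -- every point of `R i` is above a point of the image
  have h2 : ∀ i, ∀ t : R i, ∃ y, SLe (μ i y) t := by
    intro i
    refine hμ i {t | ∃ y, SLe (μ i y) t} (fun z => ⟨z, SLe.refl _⟩) ?_
    intro D hDT hD s hs
    obtain ⟨d, hd⟩ := hD.1
    obtain ⟨y, hy⟩ := hDT hd
    exact ⟨y, hy.trans (hs.1 d hd)⟩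
  choose y hy using h2
  -- the point `r` is the supremum of the points `z F`
  let z : Finset ι → ∀ i, R i := fun F i => if i ∈ F then r i else μ i (y i (r i))
  have hzr : ∀ F, SLe (z F) r := fun F => sle_pi fun i => by
    by_cases hi : i ∈ F
    · simp only [z, hi, if_true]; exact SLe.refl _
    · simp only [z, hi, if_false]; exact hy i (r i)
  have hmono : ∀ F G : Finset ι, F ⊆ G → SLe (z F) (z G) := fun F G hFG => sle_pi fun i => by
    by_cases hi : i ∈ F
    · simp only [z, hi, hFG hi, if_true]; exact SLe.refl _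
    · by_cases hi' : i ∈ G
      · simp only [z, hi, hi', if_true, if_false]; exact hy i (r i)
      · simp only [z, hi, hi', if_false]; exact SLe.refl _
  refine hTc (range z) ?_ ⟨⟨z ∅, mem_range_self _⟩, ?_⟩ r ⟨?_, ?_⟩
  · rintro _ ⟨F, rfl⟩
    refine h1 F _ fun i hi => ⟨y i (r i), ?_⟩
    simp only [z, hi, if_false]
  · rintro _ ⟨F, rfl⟩ _ ⟨G, rfl⟩
    exact ⟨z (F ∪ G), mem_range_self _, hmono _ _ Finset.subset_union_left,
      hmono _ _ Finset.subset_union_right⟩
  · rintro _ ⟨F, rfl⟩
    exact hzr F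
  · intro U hU hrU
    obtain ⟨F, V, hV, hrV, hVU⟩ := exists_box hU hrU
    refine ⟨z F, mem_range_self _, hVU _ fun i hi => ?_⟩
    simp only [z, hi, if_true]
    exact hrV i

end products

/-- Every space has a `d`-reflection. -/
theorem exists_dReflection (X : Type u) [TopologicalSpace X] :
    ∃ (R : Type u) (_ : TopologicalSpace R) (μ : X → R), IsDReflection.{u, u, w} μ := by
  let P : Type u := Set X → ULift.{u} Prop
  let e : X → P := fun x U => ULift.up (IsOpen U ∧ x ∈ U)
  have hP : IsDSpace P := isDSpace_pi (R := fun _ : Set X => ULift.{u} Prop) fun _ =>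
    isDSpace_sierpinski
  let T : Set P := ⋂₀ {S : Set P | (∀ x, e x ∈ S) ∧ DClosed S}
  have heT : ∀ x, e x ∈ T := fun x => by
    rintro S ⟨hS, -⟩
    exact hS x
  have hT : DClosed T := by
    intro D hDT hD s hs
    rintro S ⟨hS1, hS2⟩
    exact hS2 D (hDT.trans (sInter_subset_of_mem ⟨hS1, hS2⟩)) hD s hs
  have hec : Continuous e := by
    refine continuous_pi fun U => continuous_uliftUp.comp (continuous_Prop.2 ?_)
    by_cases hU : IsOpen U
    · simp [hU]
    · simp [hU]
  refine ⟨T, inferInstance, fun x => ⟨e x, heT x⟩, isDReflection_of (isDSpace_subtype hP hT)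
    ⟨le_antisymm (continuous_iff_le_induced.1 (hec.subtype_mk _)) ?_⟩ ?_⟩
  · intro U hU
    have h1 : IsOpen {p : T | ((p : P) U).down} := by
      have : Continuous (fun p : T => ((p : P) U).down) :=
        continuous_uliftDown.comp ((continuous_apply U).comp continuous_subtype_val)
      exact continuous_Prop.1 this
    refine isOpen_induced_iff.2 ⟨_, h1, ?_⟩
    ext x
    show (IsOpen U ∧ x ∈ U) ↔ x ∈ U
    exact ⟨fun h => h.2, fun h => ⟨hU, h⟩⟩
  · intro S hS hSc r
    have hsub : (r : P) ∈ Subtype.val '' S := by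
      refine r.2 _ ⟨fun x => ⟨_, hS x, rfl⟩, ?_⟩
      intro D hDS hD s hs
      have hDT : D ⊆ T := by
        intro d hd
        obtain ⟨t, -, rfl⟩ := hDS hd
        exact t.2
      have hsT : s ∈ T := hT D hDT hD s hs
      refine ⟨⟨s, hsT⟩, hSc (Subtype.val ⁻¹' D) ?_ ⟨?_, ?_⟩ _ ⟨?_, ?_⟩, rfl⟩
      · intro t ht
        obtain ⟨t', ht', h⟩ := hDS ht
        rwa [← Subtype.ext h]
      · obtain ⟨d, hd⟩ := hD.1
        exact ⟨⟨d, hDT hd⟩, hd⟩
      · intro a ha b hb
        obtain ⟨c, hc, h1, h2⟩ := hD.2 a ha b hb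
        refine ⟨⟨c, hDT hc⟩, hc, sle_of_forall fun U hU hxU => ?_,
          sle_of_forall fun U hU hxU => ?_⟩
        · obtain ⟨V, hV, rfl⟩ := isOpen_induced_iff.1 hU
          exact h1.mem hV hxU
        · obtain ⟨V, hV, rfl⟩ := isOpen_induced_iff.1 hU
          exact h2.mem hV hxU
      · intro a ha
        refine sle_of_forall fun U hU hxU => ?_
        obtain ⟨V, hV, rfl⟩ := isOpen_induced_iff.1 hU
        exact (hs.1 a ha).mem hV hxU
      · intro U hU hsU
        obtain ⟨V, hV, rfl⟩ := isOpen_induced_iff.1 hU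
        obtain ⟨d, hd, hdV⟩ := hs.2 V hV hsU
        exact ⟨⟨d, hDT hd⟩, hd, hdV⟩
    obtain ⟨t, ht, h⟩ := hsub
    rwa [← Subtype.ext h]

/-- **The `d`-reflection preserves arbitrary products.** Let `X i` (`i ∈ ι`) be a family of `T₀`
spaces.
* If `μ i : X i → R i` are `d`-reflections, then the product map `∏ X i → ∏ R i` is a
  `d`-reflection of `∏ X i`.
* Hence, for every `d`-reflection `ν : ∏ X i → S` there is a homeomorphism `S ≃ₜ ∏ R i` that
  carries `ν` to the product map: `(∏ X i)^d` is homeomorphic to `∏ (X i)^d`.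
* (`d`-reflections exist, both of the spaces `X i` and of their product.) -/
theorem result {ι : Type u} (X : ι → Type u) [∀ i, TopologicalSpace (X i)]
    (_hX : ∀ i, T0Space (X i)) :
    (∀ (R : ι → Type u) [∀ i, TopologicalSpace (R i)] (μ : ∀ i, X i → R i),
      (∀ i, IsDReflection.{u, u, u} (μ i)) →
        IsDReflection.{u, u, u} (fun (x : ∀ i, X i) (i : ι) => μ i (x i)) ∧
        ∀ (S : Type u) [TopologicalSpace S] (ν : (∀ i, X i) → S), IsDReflection.{u, u, u} ν →
          ∃ h : S ≃ₜ (∀ i, R i), ∀ x, h (ν x) = fun i => μ i (x i)) ∧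
    (∃ (R : ι → Type u) (_ : ∀ i, TopologicalSpace (R i)) (μ : ∀ i, X i → R i),
      ∀ i, IsDReflection.{u, u, u} (μ i)) ∧
    ∃ (S : Type u) (_ : TopologicalSpace S) (ν : (∀ i, X i) → S),
      IsDReflection.{u, u, u} ν := by
  refine ⟨fun R _ μ hμ => ?_, ?_, exists_dReflection _⟩
  · have hprod : IsDReflection.{u, u, u} (fun (x : ∀ i, X i) (i : ι) => μ i (x i)) :=
      isDReflection_of (isDSpace_pi fun i => (hμ i).dspace)
        (IsInducing.piMap fun i => (hμ i).isInducing) (dDense_pi fun i => (hμ i).dDense)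
    refine ⟨hprod, fun S _ ν hν => ?_⟩
    obtain ⟨f, ⟨hf, hfν⟩, -⟩ := hν.lift _ hprod.dspace _ hprod.continuous
    obtain ⟨g, ⟨hg, hgν⟩, -⟩ := hprod.lift _ hν.dspace _ hν.continuous
    obtain ⟨a, -, ha⟩ := hν.lift _ hν.dspace _ hν.continuous
    obtain ⟨b, -, hb⟩ := hprod.lift _ hprod.dspace _ hprod.continuous
    have h1 : g ∘ f = id := by
      rw [ha (g ∘ f) ⟨hg.comp hf, by rw [Function.comp_assoc, hfν, hgν]⟩,
        ha id ⟨continuous_id, rfl⟩]
    have h2 : f ∘ g = id := by
      rw [hb (f ∘ g) ⟨hf.comp hg, by rw [Function.comp_assoc, hgν, hfν]⟩,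
        hb id ⟨continuous_id, rfl⟩]
    let h : S ≃ₜ (∀ i, R i) :=
      { toFun := f
        invFun := g
        left_inv := congrFun h1
        right_inv := congrFun h2
        continuous_toFun := hf
        continuous_invFun := hg }
    exact ⟨h, fun x => congrFun hfν x⟩
  · have : ∀ i, ∃ (R : Type u) (_ : TopologicalSpace R) (μ : X i → R),
        IsDReflection.{u, u, u} μ := fun i => exists_dReflection (X i)
    choose R hR μ hμ using this
    exact ⟨R, hR, μ, hμ⟩

end Pool.Agent.Results.MP_c8df5e_gt.ArbitraryProducts
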